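import Pool.Agent.Helper36.CG.Single1
import Pool.Agent.Helper14.CG.Phase

/-!
# Project CG: `q_m(n) ≥ (2 - ε) log₂ n`
-/

set_option autoImplicit false
set_option linter.unusedSectionVars false

namespace Pool.Agent.Helper75.CG

open scoped Classical
open Finset
open Pool.Agent.Helper65.CliqueGame


--ENDSTUB

open Single in
theorem lower_two (m : ℕ) (hm : 1 ≤ m) (ε : ℝ) (hε : 0 < ε) : ∃ n₀ : ℕ, ∀ n ≥ n₀, ∀ q : ℕ,
    (q : ℝ) ≤ (2 - ε) * Real.logb 2 n → MakerWins n m q true ∅ ∅ := by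
  wlog hε1 : ε ≤ 1 generalizing ε
  · obtain ⟨n₀, h⟩ := this 1 one_pos le_rfl
    refine ⟨max n₀ 1, fun n hn q hq => h n ((le_max_left _ _).trans hn) q (hq.trans ?_)⟩
    have h1 : (1 : ℝ) ≤ n := by exact_mod_cast (le_max_right _ _).trans hn
    have h2 : 0 ≤ Real.logb 2 n := Real.logb_nonneg (by norm_num) h1
    nlinarith
  obtain ⟨C, hC, hphase⟩ := phase m 2 hm
  set g : ℝ := ε / 64 with hg
  have hg0 : 0 < g := by rw [hg]; positivity
  have hg1 : g ≤ 1 / 64 := by rw [hg]; linarith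
  obtain ⟨n₀, hn₀⟩ := Filter.eventually_atTop.1 (eventually_conditions (C := C) hε hε1 hg hC)
  refine ⟨n₀, fun n hn q hq => ?_⟩
  obtain ⟨hx2, h2L, hL, hlq, hr, hC4⟩ := hn₀ n hn
  have hx0 : (0 : ℝ) < n := by linarith
  have hx1 : (1 : ℝ) ≤ n := by linarith
  have hL0 : 0 < Real.logb 2 n := lt_of_lt_of_le (by positivity) hL
  have hqn : q ≤ n := by
    have : (q : ℝ) ≤ n := by nlinarith
    exact_mod_cast this
  have hcardV : Fintype.card (Fin n) = n := Fintype.card_fin n
  set W : ℝ := mass (phi q) (∅ : Finset (Fin n)) with hW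
  have hW0 : 0 < W := by
    rw [hW, mass_phi_empty, hcardV]
    exact_mod_cast Nat.choose_pos hqn
  have hact : ∀ e ∈ edges n, ¬ e.IsDiag := fun e he => (Finset.mem_filter.1 he).2
  have hPP : 3 / 4 * W ≤ PP (NS (Fin n)) (phi q) (capF W (n : ℝ) g (edges n)) := by
    have := PP_start (V := Fin n) (q := q) (W := W) (act := edges n) hε hε1 hg
      (by rw [hcardV]; exact hx2) (by rw [hcardV]; exact hL) (by rw [hcardV]; exact hlq)
      (by rw [hcardV]; exact hr) (by rw [hcardV]; exact hq) (by rw [hcardV]; exact hqn) hW hW0 hact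
    rwa [hcardV] at this
  have hcap : ∀ S : Finset (Fin n), 0 < capF W (n : ℝ) g (edges n) S :=
    fun S => capF_pos hW0 hx0 g _ S
  refine hphase (n := n) (q := q) (V := Fin n) (ι := Sym2 (Fin n)) (Function.Embedding.refl _)
    (NS (Fin n)) (edges n) kap (fun e => {e}) 1 m ((n : ℝ) ^ (-(6 * g))) 0
    (fun _ => W * (n : ℝ) ^ (-(2 - 4 * g))) (fun _ => W * (n : ℝ) ^ (-(3 - 6 * g))) (phi q)
    (capF W (n : ℝ) g (edges n)) ∅ ∅ le_rfl hm (mul_one m) (by positivity) ?_
    (Finset.disjoint_empty_left _) (Finset.empty_subset _) ?_ ?_ ?_ ?_ ?_ (phi_nonneg q) hcap ?_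
    (slopeA_capF hW0 hx1 hg0.le (by linarith) q _) ?_ ?_ ?_ le_rfl ?_ ?_
  · exact Real.rpow_le_one_of_one_le_of_nonpos hx1 (by linarith)
  · intro e he
    rw [kap_card (hact e he)]
  · intro e _
    simp
  · intro e he e' he'
    rw [Finset.mem_singleton] at he'
    subst he'
    have hd := hact e' he
    induction e' with
    | h x y =>
      refine ⟨x, by simp [mem_kap], y, by simp [mem_kap], ?_, rfl⟩
      simpa using hd
  · intro e _ e' _ hne
    rw [Finset.disjoint_singleton]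
    exact hne
  · intro A _ e _ x hx y hy hxy
    rw [Finset.mem_singleton] at hxy
    exact link hx hy hxy
  · intro A _ x _ y _ _ h
    exact absurd h (Finset.notMem_empty _)
  · intro e he
    exact caps_one hg0.le (edges n) (hact e he)
  · intro e _
    positivity
  · intro e he e' he' hne _
    exact caps_two hW0 hx1 hg0.le (by linarith) (edges n) (hact e he) (hact e' he') hne
  · intro x y hxy _ h _
    exfalso
    refine h s(x, y) ?_ (Finset.mem_singleton_self _)
    unfold edges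
    rw [Finset.mem_filter]
    exact ⟨Finset.mem_univ _, by simpa using hxy⟩
  · intro M' B' φ' _ _ _ _ hφ' _ hed hPP'
    have herr : C * ∑ i ∈ edges n, ((n : ℝ) ^ (-(6 * g)) * (W * (n : ℝ) ^ (-(2 - 4 * g)))
        + W * (n : ℝ) ^ (-(3 - 6 * g)) + 0) ≤ 1 / 4 * W := by
      rw [Finset.sum_const, nsmul_eq_mul]
      have e1 : (n : ℝ) ^ (-(6 * g)) * (W * (n : ℝ) ^ (-(2 - 4 * g)))
          + W * (n : ℝ) ^ (-(3 - 6 * g)) + 0
          = W * ((n : ℝ) ^ (-(6 * g) + -(2 - 4 * g)) + (n : ℝ) ^ (-(3 - 6 * g))) := by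
        rw [Real.rpow_add hx0]; ring
      have e2 : (n : ℝ) ^ 2 * ((n : ℝ) ^ (-(6 * g) + -(2 - 4 * g)) + (n : ℝ) ^ (-(3 - 6 * g)))
          = (n : ℝ) ^ (-(2 * g)) + (n : ℝ) ^ (-(1 - 6 * g)) := by
        rw [mul_add, ← Real.rpow_natCast (n : ℝ) 2, ← Real.rpow_add hx0, ← Real.rpow_add hx0]
        congr 2
        · push_cast; ring
        · push_cast; ring
      rw [e1]
      have e3 : 0 ≤ W * ((n : ℝ) ^ (-(6 * g) + -(2 - 4 * g)) + (n : ℝ) ^ (-(3 - 6 * g))) := by
        positivity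
      have e4 := mul_le_mul_of_nonneg_left
        (mul_le_mul_of_nonneg_right (edges_card_le n) e3) hC.le
      refine e4.trans ?_
      have e5 : C * ((n : ℝ) ^ 2 * (W * ((n : ℝ) ^ (-(6 * g) + -(2 - 4 * g))
          + (n : ℝ) ^ (-(3 - 6 * g)))))
          = (C * ((n : ℝ) ^ 2 * ((n : ℝ) ^ (-(6 * g) + -(2 - 4 * g))
          + (n : ℝ) ^ (-(3 - 6 * g))))) * W := by ring
      rw [e5, e2]
      exact mul_le_mul_of_nonneg_right hC4 hW0.le
    have hpos : 0 < PP (NS (Fin n)) φ'
        (claims ((1 : ℕ) : ℝ) kap (edges n) (capF W (n : ℝ) g (edges n))) := by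
      refine lt_of_lt_of_le ?_ hPP'
      linarith
    obtain ⟨A, hA⟩ := exists_of_PP_pos (fun S => by rw [claims_capF]; positivity) hpos
    have hA' : phi q A ≠ 0 := by
      intro h0
      rcases hφ' A with h | h
      · apply hA
        rw [h]
        unfold claims
        rw [h0, mul_zero]
      · exact hA h
    refine Pool.Agent.Helper85.CliqueLB.wins_of_clique hm _ true M' B' le_rfl ?_
    refine ⟨A, phi_ne hA', ?_⟩
    intro u hu v hv huv
    have hmem : s(u, v) ∈ edges n := by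
      unfold edges
      rw [Finset.mem_filter]
      exact ⟨Finset.mem_univ _, by simpa using huv⟩
    exact hed A hA s(u, v) hmem (link hu hv rfl) (Finset.mem_singleton_self _)

end Pool.Agent.Helper75.CG
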