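import Pool.Agent.Helper75.CG.Defs
import Pool.Agent.Helper85.CliqueLB1

/-!
# Counting for the lower bound `q_m(n) ≥ (2 - ε) log₂ n`
-/

set_option autoImplicit false
set_option linter.unusedSectionVars false

namespace Pool.Agent.Helper75.CG

open scoped Classical
open Finset
open Pool.Agent.Helper65.CliqueGame

theorem MakerWins.mono_q {n m q q' : ℕ} (h : q' ≤ q) {t : Bool} {M B : Finset (Sym2 (Fin n))}
    (hw : MakerWins n m q t M B) : MakerWins n m q' t M B := by
  induction hw with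
  | finish t M B hf hc =>
    refine MakerWins.finish t M B hf ?_
    obtain ⟨A, hA, hA2⟩ := hc
    obtain ⟨A', hA', hc'⟩ := Finset.exists_subset_card_eq (s := A) (n := q') (by omega)
    exact ⟨A', hc', fun u hu v hv huv => hA2 u (hA' hu) v (hA' hv) huv⟩
  | maker M B S hne hS _ ih => exact MakerWins.maker M B S hne hS ih
  | breaker M B hne _ ih => exact MakerWins.breaker M B hne ih

namespace Single

section count
variable {V : Type} [Fintype V]

/-- the pair of vertices of an edge -/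
noncomputable def kap (e : Sym2 V) : Finset V := univ.filter (fun x => x ∈ e)

lemma mem_kap {e : Sym2 V} {x : V} : x ∈ kap e ↔ x ∈ e := by simp [kap]

lemma kap_mk (x y : V) : kap s(x, y) = {x, y} := by
  ext z; simp [mem_kap]

lemma kap_card {e : Sym2 V} (h : ¬ e.IsDiag) : (kap e).card = 2 := by
  induction e with
  | h x y =>
    rw [kap_mk, Finset.card_pair]
    simpa using h

lemma kap_inj {e e' : Sym2 V} (h : kap e = kap e') : e = e' := by
  apply Sym2.ext
  intro x
  rw [← mem_kap, ← mem_kap, h]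

lemma kap_union_card {e e' : Sym2 V} (h : ¬ e.IsDiag) (h' : ¬ e'.IsDiag) (hne : e ≠ e') :
    (kap e ∪ kap e').card = 3 ∨ (kap e ∪ kap e').card = 4 := by
  have h1 : (kap e ∪ kap e').card ≤ 4 := by
    have := Finset.card_union_le (kap e) (kap e')
    rw [kap_card h, kap_card h'] at this
    exact this
  have h2 : 2 < (kap e ∪ kap e').card := by
    by_contra hcon
    have h3 : kap e = kap e ∪ kap e' :=
      Finset.eq_of_subset_of_card_le Finset.subset_union_left (by rw [kap_card h]; omega)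
    have h4 : kap e' = kap e ∪ kap e' :=
      Finset.eq_of_subset_of_card_le Finset.subset_union_right (by rw [kap_card h']; omega)
    exact hne (kap_inj (h3.trans h4.symm))
  omega

/-- the number of edges inside `S` -/
noncomputable def nE (act : Finset (Sym2 V)) (S : Finset V) : ℕ :=
  (act.filter (fun e => kap e ⊆ S)).card

lemma nE_le {act : Finset (Sym2 V)} (h : ∀ e ∈ act, ¬ e.IsDiag) (S : Finset V) :
    nE act S ≤ S.card.choose 2 := by
  unfold nE
  rw [← Sym2.card_image_offDiag]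
  apply Finset.card_le_card
  intro e he
  rw [Finset.mem_filter] at he
  obtain ⟨he1, he2⟩ := he
  have hd := h e he1
  induction e with
  | h x y =>
    rw [kap_mk] at he2
    rw [Finset.mem_image]
    refine ⟨(x, y), ?_, rfl⟩
    rw [Finset.mem_offDiag]
    refine ⟨he2 (by simp), he2 (by simp), ?_⟩
    simpa using hd

lemma nE_diff (act : Finset (Sym2 V)) {S T : Finset V} (h : S ⊆ T) :
    nE act S + (act.filter (fun e => kap e ⊆ T ∧ ¬ kap e ⊆ S)).card = nE act T := by
  unfold nE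
  rw [← Finset.card_union_of_disjoint]
  · congr 1
    ext e
    simp only [Finset.mem_union, Finset.mem_filter]
    constructor
    · rintro (⟨h1, h2⟩ | ⟨h1, h2, _⟩)
      · exact ⟨h1, h2.trans h⟩
      · exact ⟨h1, h2⟩
    · rintro ⟨h1, h2⟩
      by_cases h3 : kap e ⊆ S
      · exact Or.inl ⟨h1, h3⟩
      · exact Or.inr ⟨h1, h2, h3⟩
  · rw [Finset.disjoint_left]
    intro e he he'
    exact (Finset.mem_filter.1 he').2.2 (Finset.mem_filter.1 he).2

/-- the weights -/
noncomputable def phi (q : ℕ) (A : Finset V) : ℝ := if A.card = q then 1 else 0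

lemma phi_nonneg (q : ℕ) (A : Finset V) : 0 ≤ phi q A := by
  unfold phi; split_ifs <;> norm_num

lemma phi_ne {q : ℕ} {A : Finset V} (h : phi q A ≠ 0) : A.card = q := by
  unfold phi at h
  by_contra hcon
  rw [if_neg hcon] at h
  exact h rfl

lemma mass_phi (q : ℕ) (S : Finset V) (hS : S.card ≤ q) :
    mass (phi q) S = ((Fintype.card V - S.card).choose (q - S.card) : ℕ) := by
  have h1 : mass (phi q) S
      = (((univ.filter (fun A : Finset V => S ⊆ A)).filter (fun A => A.card = q)).card : ℝ) := by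
    unfold mass phi
    rw [Finset.sum_boole]
  rw [h1, Nat.cast_inj]
  have h2 : (Fintype.card V - S.card).choose (q - S.card)
      = (Finset.powersetCard (q - S.card) (univ \ S)).card := by
    rw [Finset.card_powersetCard, Finset.card_sdiff_of_subset (Finset.subset_univ S),
      Finset.card_univ]
  rw [h2]
  refine Finset.card_nbij' (fun A => A \ S) (fun B => B ∪ S) ?_ ?_ ?_ ?_
  · intro A hA
    simp only [Finset.mem_coe, Finset.mem_filter, Finset.mem_univ, true_and] at hA
    simp only [Finset.mem_coe, Finset.mem_powersetCard]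
    refine ⟨Finset.sdiff_subset_sdiff (Finset.subset_univ _) (Finset.Subset.refl _), ?_⟩
    rw [Finset.card_sdiff_of_subset hA.1, hA.2]
  · intro B hB
    simp only [Finset.mem_coe, Finset.mem_powersetCard] at hB
    simp only [Finset.mem_coe, Finset.mem_filter, Finset.mem_univ, true_and]
    refine ⟨Finset.subset_union_right, ?_⟩
    rw [Finset.card_union_of_disjoint, hB.2]
    · omega
    · rw [Finset.disjoint_left]
      intro x hx
      exact (Finset.mem_sdiff.1 (hB.1 hx)).2
  · intro A hA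
    simp only [Finset.mem_coe, Finset.mem_filter, Finset.mem_univ, true_and] at hA
    exact Finset.sdiff_union_of_subset hA.1
  · intro B hB
    simp only [Finset.mem_coe, Finset.mem_powersetCard] at hB
    ext x
    simp only [Finset.mem_sdiff, Finset.mem_union]
    constructor
    · rintro ⟨h | h, h'⟩
      · exact h
      · exact absurd h h'
    · intro h
      exact ⟨Or.inl h, (Finset.mem_sdiff.1 (hB.1 h)).2⟩

lemma mass_phi_zero (q : ℕ) (S : Finset V) (hS : q < S.card) : mass (phi q) S = 0 := by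
  unfold mass
  refine Finset.sum_eq_zero (fun A hA => ?_)
  rw [Finset.mem_filter] at hA
  unfold phi
  rw [if_neg]
  intro h
  have := Finset.card_le_card hA.2
  omega

lemma choose_bound (n q : ℕ) (hq : q ≤ n) : ∀ s ≤ q,
    (n - s).choose (q - s) * n ^ s ≤ q ^ s * n.choose q := by
  intro s
  induction s with
  | zero => intro _; simp
  | succ s ih =>
    intro hs
    have h1 := ih (by omega)
    obtain ⟨a, ha⟩ : ∃ a, n - s = a + 1 := ⟨n - s - 1, by omega⟩
    obtain ⟨b, hb⟩ : ∃ b, q - s = b + 1 := ⟨q - s - 1, by omega⟩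
    have ha' : n - (s + 1) = a := by omega
    have hb' : q - (s + 1) = b := by omega
    rw [ha, hb] at h1
    rw [ha', hb']
    have h2 : (a + 1) * a.choose b = (a + 1).choose (b + 1) * (b + 1) :=
      Nat.add_one_mul_choose_eq a b
    have h3 : (b + 1) * n ≤ q * (a + 1) := by
      have e1 : n = a + 1 + s := by omega
      have e2 : q = b + 1 + s := by omega
      have e3 : b ≤ a := by omega
      rw [e1, e2]
      nlinarith
    refine Nat.le_of_mul_le_mul_left (c := a + 1) ?_ (Nat.succ_pos a)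
    calc (a + 1) * (a.choose b * n ^ (s + 1))
        = ((a + 1) * a.choose b) * n ^ s * n := by ring
      _ = ((a + 1).choose (b + 1) * n ^ s) * ((b + 1) * n) := by rw [h2]; ring
      _ ≤ (q ^ s * n.choose q) * (q * (a + 1)) := Nat.mul_le_mul h1 h3
      _ = (a + 1) * (q ^ (s + 1) * n.choose q) := by ring

lemma mass_phi_empty (q : ℕ) : mass (phi q) (∅ : Finset V) = ((Fintype.card V).choose q : ℕ) := by
  rw [mass_phi q ∅ (by simp)]
  simp

lemma mass_phi_nonneg (q : ℕ) (S : Finset V) : 0 ≤ mass (phi q) S :=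
  Finset.sum_nonneg (fun A _ => phi_nonneg q A)

lemma mass_phi_le (q : ℕ) (hq : q ≤ Fintype.card V) (S : Finset V) :
    mass (phi q) S * (Fintype.card V : ℝ) ^ S.card ≤ (q : ℝ) ^ S.card * mass (phi q) (∅ : Finset V) := by
  rcases Nat.lt_or_ge q S.card with h | h
  · rw [mass_phi_zero q S h, zero_mul]
    exact mul_nonneg (by positivity) (mass_phi_nonneg _ _)
  · rw [mass_phi_empty, mass_phi q S h]
    exact_mod_cast choose_bound (Fintype.card V) q hq S.card h

lemma sum_mass_pow (t : ℝ) (q : ℕ) :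
    ∑ S ∈ univ.filter (fun S : Finset V => S.Nonempty), mass (phi q) S * t ^ S.card
      = ((1 + t) ^ q - 1) * mass (phi q) (∅ : Finset V) := by
  have h1 : ∑ S : Finset V, mass (phi q) S * t ^ S.card
      = (1 + t) ^ q * mass (phi q) (∅ : Finset V) := by
    have e1 : ∀ S : Finset V, mass (phi q) S * t ^ S.card
        = ∑ A : Finset V, (if S ⊆ A then phi q A * t ^ S.card else 0) := by
      intro S
      unfold mass
      rw [Finset.sum_mul, Finset.sum_filter]
    simp only [e1]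
    rw [Finset.sum_comm]
    have e2 : ∀ A : Finset V, ∑ S : Finset V, (if S ⊆ A then phi q A * t ^ S.card else 0)
        = (1 + t) ^ q * phi q A := by
      intro A
      rw [← Finset.sum_filter, ← Finset.mul_sum]
      have e3 : (univ.filter (fun S : Finset V => S ⊆ A)) = A.powerset := by
        ext S; simp
      rw [e3]
      by_cases hA : A.card = q
      · have e4 := Finset.sum_pow_mul_eq_add_pow t 1 A
        simp only [one_pow, mul_one] at e4
        rw [e4, hA, add_comm, mul_comm]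
      · have : phi q A = 0 := by unfold phi; rw [if_neg hA]
        rw [this]; ring
    simp only [e2]
    rw [← Finset.mul_sum]
    congr 1
    unfold mass
    rw [Finset.sum_filter]
    refine Finset.sum_congr rfl (fun A _ => ?_)
    rw [if_pos (Finset.empty_subset A)]
  have h2 : ∑ S : Finset V, mass (phi q) S * t ^ S.card
      = ∑ S ∈ univ.filter (fun S : Finset V => S.Nonempty), mass (phi q) S * t ^ S.card
        + ∑ S ∈ univ.filter (fun S : Finset V => ¬ S.Nonempty), mass (phi q) S * t ^ S.card :=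
    (Finset.sum_filter_add_sum_filter_not _ _ _).symm
  have h3 : (univ.filter (fun S : Finset V => ¬ S.Nonempty)) = {∅} := by
    ext S; simp [Finset.not_nonempty_iff_eq_empty]
  rw [h3, Finset.sum_singleton, Finset.card_empty, pow_zero, mul_one, h1] at h2
  linarith

end count

section numerics
open Filter Topology

/-- the exponents -/
noncomputable def mu (g s : ℝ) : ℝ := min ((1 - 8 * g) * s) 3 + 6 * g * s

lemma mu_step {g s s' : ℝ} (hg : 0 ≤ g) (hg8 : 8 * g ≤ 1) (h : s + 1 ≤ s') :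
    mu g s + 6 * g ≤ mu g s' := by
  unfold mu
  have h1 : min ((1 - 8 * g) * s) 3 ≤ min ((1 - 8 * g) * s') 3 :=
    min_le_min (mul_le_mul_of_nonneg_left (by linarith) (by linarith)) le_rfl
  nlinarith

lemma mu_two {g : ℝ} (hg : 0 ≤ g) : mu g 2 = 2 - 4 * g := by
  unfold mu
  rw [min_eq_left (by linarith)]; ring

lemma mu_three {g : ℝ} (hg : 0 ≤ g) : mu g 3 = 3 - 6 * g := by
  unfold mu
  rw [min_eq_left (by linarith)]; ring

lemma mu_four {g : ℝ} (hg : 0 ≤ g) (hg8 : 32 * g ≤ 1) : 3 - 6 * g ≤ mu g 4 := by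
  unfold mu
  rw [min_eq_right (by linarith)]; linarith

lemma star {ε g L lq s : ℝ} (hε : 0 < ε) (_hε1 : ε ≤ 1) (hg : g = ε / 64)
    (hL : 768 / ε ^ 2 ≤ L) (hlq : lq ≤ g / 2 * L) (hs : 1 ≤ s) (hsq : s ≤ (2 - ε) * L) :
    L * mu g s + s * (s - 1) / 2 + s * lq ≤ (1 - g) * L * s := by
  have hg0 : 0 < g := by rw [hg]; positivity
  have hL0 : 0 < L := lt_of_lt_of_le (by positivity) hL
  have hLe : 768 ≤ L * ε ^ 2 := by rwa [div_le_iff₀ (by positivity)] at hL
  have hεL : 12 ≤ ε * (g * L) := by rw [hg]; nlinarith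
  have hslq : s * lq ≤ s * (g / 2 * L) := mul_le_mul_of_nonneg_left hlq (by linarith)
  rcases le_total (ε * s) 12 with h | h
  · have h1 : mu g s ≤ (1 - 2 * g) * s := by
      unfold mu
      have := min_le_left ((1 - 8 * g) * s) 3
      linarith
    have h2 := mul_le_mul_of_nonneg_left h1 hL0.le
    have h3 : s - 1 ≤ g * L := by
      have : ε * s ≤ ε * (g * L) := h.trans hεL
      have := le_of_mul_le_mul_left this hε
      linarith
    have h4 : s * (s - 1) ≤ s * (g * L) := mul_le_mul_of_nonneg_left h3 (by linarith)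
    nlinarith
  · have h1 : mu g s ≤ 3 + 6 * g * s := by
      unfold mu
      have := min_le_right ((1 - 8 * g) * s) 3
      linarith
    have h2 := mul_le_mul_of_nonneg_left h1 hL0.le
    have h3 : s * (s - 1) ≤ s * ((2 - ε) * L) := mul_le_mul_of_nonneg_left (by linarith) (by linarith)
    have h4 : 12 * L ≤ ε * s * L := mul_le_mul_of_nonneg_right h hL0.le
    have h5 : 0 < s * L * g := by positivity
    have h6 : ε = 64 * g := by rw [hg]; ring
    rw [h6] at h3 h4
    nlinarith

/-- the inequality behind the initial masses -/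
lemma star_pow {ε g x : ℝ} {q s : ℕ} (hε : 0 < ε) (hε1 : ε ≤ 1) (hg : g = ε / 64) (hx : 2 ≤ x)
    (hL : 768 / ε ^ 2 ≤ Real.logb 2 x) (hlq : Real.logb 2 (2 * Real.logb 2 x) ≤ g / 2 * Real.logb 2 x)
    (hs : 1 ≤ s) (hsq : s ≤ q) (hq : (q : ℝ) ≤ (2 - ε) * Real.logb 2 x) :
    (q : ℝ) ^ s * 2 ^ (s.choose 2) ≤ x ^ ((1 - g) * s - mu g s) := by
  set L := Real.logb 2 x with hLdef
  have hL0 : 0 < L := lt_of_lt_of_le (by positivity) hL
  have hq1 : (1 : ℝ) ≤ q := by exact_mod_cast hs.trans hsq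
  have hlq' : Real.logb 2 q ≤ g / 2 * L := by
    refine le_trans ?_ hlq
    refine Real.logb_le_logb_of_le (by norm_num) (by linarith) ?_
    nlinarith
  have hs1 : (1 : ℝ) ≤ s := by exact_mod_cast hs
  have hsq' : (s : ℝ) ≤ (2 - ε) * L := le_trans (by exact_mod_cast hsq) hq
  have h := star hε hε1 hg hL hlq' hs1 hsq'
  have e1 : (q : ℝ) ^ s = 2 ^ (Real.logb 2 q * s) := by
    rw [Real.rpow_mul (by norm_num), Real.rpow_logb (by norm_num) (by norm_num) (by linarith),
      Real.rpow_natCast]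
  have e2 : x ^ ((1 - g) * s - mu g s) = 2 ^ (L * ((1 - g) * s - mu g s)) := by
    rw [Real.rpow_mul (by norm_num), hLdef, Real.rpow_logb (by norm_num) (by norm_num) (by linarith)]
  have e3 : (2 : ℝ) ^ (s.choose 2) = 2 ^ ((s : ℝ) * (s - 1) / 2) := by
    rw [← Real.rpow_natCast, Nat.cast_choose_two]
  rw [e1, e2, e3, ← Real.rpow_add (by norm_num)]
  refine Real.rpow_le_rpow_of_exponent_le (by norm_num) ?_
  nlinarith

lemma tendsto_logb : Tendsto (fun n : ℕ => Real.logb 2 n) atTop atTop :=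
  (Real.tendsto_logb_atTop (by norm_num)).comp tendsto_natCast_atTop_atTop

lemma eventually_conditions {ε g C : ℝ} (hε : 0 < ε) (hε1 : ε ≤ 1) (hg : g = ε / 64) (_hC : 0 < C) :
    ∀ᶠ n : ℕ in atTop, (2 : ℝ) ≤ n ∧ 2 * Real.logb 2 n ≤ n ∧ 768 / ε ^ 2 ≤ Real.logb 2 n ∧
      Real.logb 2 (2 * Real.logb 2 n) ≤ g / 2 * Real.logb 2 n ∧
      2 * Real.logb 2 n * (n : ℝ) ^ (-g) ≤ 1 / 8 ∧
      C * ((n : ℝ) ^ (-(2 * g)) + (n : ℝ) ^ (-(1 - 6 * g))) ≤ 1 / 4 := by
  have hg0 : 0 < g := by rw [hg]; positivity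
  have hg1 : g ≤ 1 / 64 := by rw [hg]; linarith
  have hl2 : 0 < Real.log 2 := Real.log_pos (by norm_num)
  have hcast : Tendsto (fun n : ℕ => (n : ℝ)) atTop atTop := tendsto_natCast_atTop_atTop
  have h1 : ∀ᶠ n : ℕ in atTop, (2 : ℝ) ≤ n := hcast.eventually_ge_atTop 2
  -- logarithm against powers
  have key : ∀ r : ℝ, 0 < r → ∀ c : ℝ, 0 < c → ∀ᶠ n : ℕ in atTop,
      Real.logb 2 n ≤ c * (n : ℝ) ^ r := by
    intro r hr c hc
    have h := (isLittleO_log_rpow_atTop hr).bound (mul_pos hc hl2)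
    have h' := hcast.eventually h
    filter_upwards [h', h1] with n hn hn2
    rw [Real.norm_eq_abs, Real.norm_eq_abs, abs_of_nonneg (Real.log_nonneg (by linarith)),
      abs_of_nonneg (by positivity)] at hn
    unfold Real.logb
    rw [div_le_iff₀ hl2]
    linarith
  have h2 := key 1 one_pos (1 / 2) (by norm_num)
  have h3 : ∀ᶠ n : ℕ in atTop, 768 / ε ^ 2 ≤ Real.logb 2 n :=
    tendsto_logb.eventually_ge_atTop _
  have h4 : ∀ᶠ n : ℕ in atTop, Real.logb 2 (2 * Real.logb 2 n) ≤ g / 2 * Real.logb 2 n := by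
    have h : Tendsto (fun n : ℕ => 2 * Real.logb 2 n) atTop atTop :=
      tendsto_logb.const_mul_atTop (by norm_num)
    have hb := Real.isLittleO_log_id_atTop.bound (mul_pos (by positivity : 0 < g / 4) hl2)
    have h' := h.eventually hb
    filter_upwards [h', h3] with n hn hn3
    have hpos : 0 < Real.logb 2 n := lt_of_lt_of_le (by positivity) hn3
    have hn3' : 1 ≤ Real.logb 2 n := by
      refine le_trans ?_ hn3
      rw [le_div_iff₀ (by positivity)]
      nlinarith
    rw [Real.norm_eq_abs, Real.norm_eq_abs, id, abs_of_nonneg (Real.log_nonneg (by linarith)),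
      abs_of_nonneg (by positivity)] at hn
    have : Real.logb 2 (2 * Real.logb 2 n) = Real.log (2 * Real.logb 2 n) / Real.log 2 := rfl
    rw [this, div_le_iff₀ hl2]
    linarith
  have h5 := key g hg0 (1 / 16) (by norm_num)
  have h6 : ∀ᶠ n : ℕ in atTop, C * ((n : ℝ) ^ (-(2 * g)) + (n : ℝ) ^ (-(1 - 6 * g))) ≤ 1 / 4 := by
    have ha : Tendsto (fun n : ℕ => (n : ℝ) ^ (-(2 * g))) atTop (𝓝 0) :=
      (tendsto_rpow_neg_atTop (by positivity)).comp hcast
    have hb : Tendsto (fun n : ℕ => (n : ℝ) ^ (-(1 - 6 * g))) atTop (𝓝 0) :=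
      (tendsto_rpow_neg_atTop (by linarith)).comp hcast
    have hc : Tendsto (fun n : ℕ => C * ((n : ℝ) ^ (-(2 * g)) + (n : ℝ) ^ (-(1 - 6 * g)))) atTop
        (𝓝 0) := by
      have := (ha.add hb).const_mul C
      simpa using this
    exact hc.eventually_le_const (by norm_num)
  filter_upwards [h1, h2, h3, h4, h5, h6] with n n1 n2 n3 n4 n5 n6
  refine ⟨n1, ?_, n3, n4, ?_, n6⟩
  · rw [Real.rpow_one] at n2; linarith
  · have hn0 : (0 : ℝ) < n := by linarith
    rw [Real.rpow_neg hn0.le, ← div_eq_mul_inv, div_le_iff₀ (by positivity)]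
    linarith


end numerics

end Single

namespace Single

section caps
variable {V : Type} [Fintype V]

/-- the capacities -/
noncomputable def capF (W x g : ℝ) (act : Finset (Sym2 V)) (S : Finset V) : ℝ :=
  W * x ^ (-(mu g S.card)) / 2 ^ (nE act S)

/-- the nonempty sets -/
noncomputable def NS (V : Type) [Fintype V] : Finset (Finset V) :=
  univ.filter (fun S : Finset V => S.Nonempty)

lemma mem_NS {S : Finset V} : S ∈ NS V ↔ S.Nonempty := by simp [NS]

lemma one_add_cast : (1 : ℝ) + ((1 : ℕ) : ℝ) = 2 := by norm_num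

lemma claims_capF (W x g : ℝ) (act : Finset (Sym2 V)) (S : Finset V) :
    claims ((1 : ℕ) : ℝ) kap act (capF W x g act) S = W * x ^ (-(mu g S.card)) := by
  unfold claims capF nE
  rw [one_add_cast]
  field_simp

lemma capF_pos {W x : ℝ} (hW : 0 < W) (hx : 0 < x) (g : ℝ) (act : Finset (Sym2 V))
    (S : Finset V) : 0 < capF W x g act S := by
  unfold capF
  positivity

lemma slopeA_capF {W x g : ℝ} (hW : 0 < W) (hx : 1 ≤ x) (hg : 0 ≤ g) (hg8 : 8 * g ≤ 1) (q : ℕ)
    (act : Finset (Sym2 V)) :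
    SlopeA (x ^ (-(6 * g))) (NS V) (phi q) (capF W x g act) act kap ((1 : ℕ) : ℝ) := by
  intro A _ S hS i _ _ hkS
  have hx0 : 0 < x := by linarith
  rw [mem_NS] at hS
  refine ⟨mem_NS.2 (hS.mono Finset.subset_union_left), ?_⟩
  have hcount := nE_diff act (S := S) (T := S ∪ kap i) Finset.subset_union_left
  set c := (act.filter (fun j => kap j ⊆ S ∪ kap i ∧ ¬ kap j ⊆ S)).card with hc
  have hlt : (S.card : ℝ) + 1 ≤ ((S ∪ kap i).card : ℝ) := by
    have : S.card < (S ∪ kap i).card := by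
      apply Finset.card_lt_card
      rw [Finset.ssubset_iff_subset_ne]
      refine ⟨Finset.subset_union_left, ?_⟩
      intro h
      apply hkS
      rw [h]
      exact Finset.subset_union_right
    exact_mod_cast this
  have hmu := mu_step hg hg8 hlt
  unfold capF
  rw [one_add_cast, ← hcount, pow_add]
  have e1 : (2 : ℝ) ^ c * (W * x ^ (-(mu g (S ∪ kap i).card)) / (2 ^ nE act S * 2 ^ c))
      = W * x ^ (-(mu g (S ∪ kap i).card)) / 2 ^ nE act S := by
    field_simp
  have e2 : x ^ (-(6 * g)) * (W * x ^ (-(mu g S.card)) / 2 ^ nE act S)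
      = W * x ^ (-(6 * g) + -(mu g S.card)) / 2 ^ nE act S := by
    rw [Real.rpow_add hx0]; ring
  rw [e1, e2]
  refine div_le_div_of_nonneg_right ?_ (by positivity)
  refine mul_le_mul_of_nonneg_left ?_ hW.le
  refine Real.rpow_le_rpow_of_exponent_le hx ?_
  linarith

/-- the relative masses at the start -/
lemma mass_start {ε g W : ℝ} {q : ℕ} (hε : 0 < ε) (hε1 : ε ≤ 1) (hg : g = ε / 64)
    (hx : (2 : ℝ) ≤ Fintype.card V) (hL : 768 / ε ^ 2 ≤ Real.logb 2 (Fintype.card V))
    (hlq : Real.logb 2 (2 * Real.logb 2 (Fintype.card V)) ≤ g / 2 * Real.logb 2 (Fintype.card V))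
    (hq : (q : ℝ) ≤ (2 - ε) * Real.logb 2 (Fintype.card V)) (hqn : q ≤ Fintype.card V)
    (hW : W = mass (phi q) (∅ : Finset V)) (hW0 : 0 < W) {act : Finset (Sym2 V)}
    (hact : ∀ e ∈ act, ¬ e.IsDiag) {S : Finset V} (hS : S.Nonempty) :
    mass (phi q) S ≤ (((Fintype.card V : ℝ) ^ (-g)) ^ S.card) *
      capF W (Fintype.card V : ℝ) g act S := by
  set x : ℝ := (Fintype.card V : ℝ) with hxd
  have hx0 : 0 < x := by linarith
  rcases Nat.lt_or_ge q S.card with h | h
  · rw [mass_phi_zero q S h]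
    have := capF_pos hW0 hx0 g act S
    positivity
  have h1 := mass_phi_le q hqn S
  rw [← hxd, ← hW] at h1
  have h2 := star_pow hε hε1 hg hx hL hlq (Finset.card_pos.2 hS) h hq
  have h3 : (2 : ℝ) ^ nE act S ≤ 2 ^ (S.card.choose 2) :=
    pow_le_pow_right₀ (by norm_num) (nE_le hact S)
  have h4 : (q : ℝ) ^ S.card * 2 ^ nE act S ≤ x ^ ((1 - g) * S.card - mu g S.card) :=
    le_trans (mul_le_mul_of_nonneg_left h3 (by positivity)) h2
  have hxs : 0 < x ^ S.card := by positivity
  have h2n : (0 : ℝ) < 2 ^ nE act S := by positivity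
  unfold capF
  rw [← Real.rpow_natCast (x ^ (-g)), ← Real.rpow_mul hx0.le]
  rw [← mul_div_assoc, le_div_iff₀ h2n]
  have e1 : x ^ (-g * (S.card : ℝ)) * (W * x ^ (-(mu g S.card))) * x ^ S.card
      = W * x ^ ((1 - g) * S.card - mu g S.card) := by
    have : (1 - g) * (S.card : ℝ) - mu g S.card
        = -g * (S.card : ℝ) + (-(mu g S.card)) + (S.card : ℝ) := by ring
    rw [this, Real.rpow_add hx0, Real.rpow_add hx0, Real.rpow_natCast]
    ring
  refine le_of_mul_le_mul_right ?_ hxs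
  rw [e1]
  calc mass (phi q) S * 2 ^ nE act S * x ^ S.card
      = (mass (phi q) S * x ^ S.card) * 2 ^ nE act S := by ring
    _ ≤ ((q : ℝ) ^ S.card * W) * 2 ^ nE act S := mul_le_mul_of_nonneg_right h1 h2n.le
    _ = W * ((q : ℝ) ^ S.card * 2 ^ nE act S) := by ring
    _ ≤ _ := mul_le_mul_of_nonneg_left h4 hW0.le

lemma one_add_pow_le {t : ℝ} {q : ℕ} (ht : 0 ≤ t) (h : (q : ℝ) * t ≤ 1 / 8) :
    (1 + t) ^ q - 1 ≤ 1 / 4 := by
  have h1 : (1 + t) ^ q ≤ Real.exp ((q : ℝ) * t) := by
    rw [Real.exp_nat_mul]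
    refine pow_le_pow_left₀ (by linarith) ?_ q
    have := Real.add_one_le_exp t
    linarith
  have h2 : Real.exp ((q : ℝ) * t) ≤ Real.exp (1 / 8) := Real.exp_le_exp.2 h
  have h3 : Real.exp (1 / 8) ≤ 8 / 7 := by
    have h4 := Real.add_one_le_exp (-(1 / 8) : ℝ)
    rw [Real.exp_neg] at h4
    have h5 : (0 : ℝ) < Real.exp (1 / 8) := Real.exp_pos _
    have h6 : (7 / 8 : ℝ) ≤ (Real.exp (1 / 8))⁻¹ := by linarith
    rw [le_inv_comm₀ (by norm_num) h5] at h6
    norm_num at h6 ⊢
    exact h6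
  linarith

/-- the potential at the start -/
lemma PP_start {ε g W : ℝ} {q : ℕ} (hε : 0 < ε) (hε1 : ε ≤ 1) (hg : g = ε / 64)
    (hx : (2 : ℝ) ≤ (Fintype.card V : ℝ)) (hL : 768 / ε ^ 2 ≤ Real.logb 2 (Fintype.card V : ℝ))
    (hlq : Real.logb 2 (2 * Real.logb 2 (Fintype.card V : ℝ))
      ≤ g / 2 * Real.logb 2 (Fintype.card V : ℝ))
    (hr : 2 * Real.logb 2 (Fintype.card V : ℝ) * (Fintype.card V : ℝ) ^ (-g) ≤ 1 / 8)
    (hq : (q : ℝ) ≤ (2 - ε) * Real.logb 2 (Fintype.card V : ℝ)) (hqn : q ≤ Fintype.card V)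
    (hW : W = mass (phi q) (∅ : Finset V)) (hW0 : 0 < W) {act : Finset (Sym2 V)}
    (hact : ∀ e ∈ act, ¬ e.IsDiag) :
    3 / 4 * W ≤ PP (NS V) (phi q) (capF W (Fintype.card V : ℝ) g act) := by
  set x : ℝ := (Fintype.card V : ℝ) with hxd
  have hx0 : 0 < x := by linarith
  have hL0 : 0 < Real.logb 2 x := lt_of_lt_of_le (by positivity) hL
  have ht : 0 < x ^ (-g) := by positivity
  have h1 : ∑ S ∈ NS V, mass (phi q) S ^ 2 / capF W x g act S
      ≤ ∑ S ∈ NS V, mass (phi q) S * (x ^ (-g)) ^ S.card := by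
    refine Finset.sum_le_sum (fun S hS => ?_)
    have h2 := mass_start hε hε1 hg hx hL hlq hq hqn hW hW0 hact (mem_NS.1 hS)
    rw [← hxd] at h2
    rw [div_le_iff₀ (capF_pos hW0 hx0 g act S), sq, mul_assoc]
    exact mul_le_mul_of_nonneg_left h2 (mass_phi_nonneg _ _)
  have h2 : ∑ S ∈ NS V, mass (phi q) S * (x ^ (-g)) ^ S.card
      = ((1 + x ^ (-g)) ^ q - 1) * W := by
    rw [hW]
    exact sum_mass_pow _ _
  have h3 : (1 + x ^ (-g)) ^ q - 1 ≤ 1 / 4 := by
    refine one_add_pow_le ht.le ?_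
    refine le_trans (mul_le_mul_of_nonneg_right ?_ ht.le) hr
    nlinarith
  have h4 := mul_le_mul_of_nonneg_right h3 hW0.le
  unfold PP
  rw [← hW]
  linarith

lemma exists_of_PP_pos {SS : Finset (Finset V)} {φ cap : Finset V → ℝ} (hcap : ∀ S, 0 ≤ cap S)
    (h : 0 < PP SS φ cap) : ∃ A, φ A ≠ 0 := by
  by_contra hcon
  push Not at hcon
  have h1 : mass φ ∅ = 0 := by
    unfold mass
    exact Finset.sum_eq_zero (fun A _ => hcon A)
  have h2 : 0 ≤ ∑ S ∈ SS, mass φ S ^ 2 / cap S :=
    Finset.sum_nonneg (fun S _ => div_nonneg (sq_nonneg _) (hcap S))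
  unfold PP at h
  linarith

lemma caps_one {W x g : ℝ} (hg : 0 ≤ g) (act : Finset (Sym2 V)) {e : Sym2 V} (he : ¬ e.IsDiag) :
    kap e ∈ NS V ∧
      claims ((1 : ℕ) : ℝ) kap act (capF W x g act) (kap e) ≤ W * x ^ (-(2 - 4 * g)) := by
  have hc := kap_card he
  refine ⟨mem_NS.2 (Finset.card_pos.1 (by omega)), ?_⟩
  rw [claims_capF, hc]
  have : ((2 : ℕ) : ℝ) = 2 := by norm_num
  rw [this, mu_two hg]

lemma caps_two {W x g : ℝ} (hW : 0 < W) (hx : 1 ≤ x) (hg : 0 ≤ g) (hg8 : 32 * g ≤ 1)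
    (act : Finset (Sym2 V)) {e e' : Sym2 V} (he : ¬ e.IsDiag) (he' : ¬ e'.IsDiag) (hne : e ≠ e') :
    kap e ∪ kap e' ∈ NS V ∧
      claims ((1 : ℕ) : ℝ) kap act (capF W x g act) (kap e ∪ kap e')
        ≤ W * x ^ (-(3 - 6 * g)) := by
  have hc := kap_union_card he he' hne
  refine ⟨mem_NS.2 (Finset.card_pos.1 (by omega)), ?_⟩
  rw [claims_capF]
  refine mul_le_mul_of_nonneg_left (Real.rpow_le_rpow_of_exponent_le hx ?_) hW.le
  rcases hc with hc | hc
  · rw [hc]
    have : ((3 : ℕ) : ℝ) = 3 := by norm_num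
    rw [this, mu_three hg]
  · rw [hc]
    have : ((4 : ℕ) : ℝ) = 4 := by norm_num
    rw [this]
    have := mu_four hg hg8
    linarith

lemma link {e : Sym2 V} {A : Finset V} {x y : V} (hx : x ∈ A) (hy : y ∈ A) (h : s(x, y) = e) :
    kap e ⊆ A := by
  rw [← h]
  intro z hz
  rw [mem_kap, Sym2.mem_iff] at hz
  rcases hz with rfl | rfl
  · exact hx
  · exact hy

end caps

lemma edges_card_le (n : ℕ) : ((edges n).card : ℝ) ≤ (n : ℝ) ^ 2 := by
  have h1 : (edges n).card ≤ Fintype.card (Sym2 (Fin n)) := Finset.card_le_univ _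
  have h2 : Fintype.card (Sym2 (Fin n)) ≤ Fintype.card (Fin n × Fin n) := by
    refine Fintype.card_le_of_surjective (fun z : Fin n × Fin n => s(z.1, z.2)) ?_
    intro e
    induction e with
    | h x y => exact ⟨(x, y), rfl⟩
  rw [Fintype.card_prod, Fintype.card_fin] at h2
  have h3 : (edges n).card ≤ n ^ 2 := by rw [sq]; exact h1.trans h2
  exact_mod_cast h3

end Single

end Pool.Agent.Helper75.CG
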